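import Pool.Agent.Helper99.MKV.GoalsC

/-!
# MKV, packet BDZ: bounds of the charges and of the charges times potentials
-/

set_option autoImplicit false

open Finset

namespace Pool.Agent.Helper69.MKV

open Pool.Agent.Helper99.MKV Pool.Agent.Helper99.EXC Pool.Agent.Helper99.ERW

theorem bdz_nm_nonneg (x : Site 2) : 0 ≤ nm x := le_max_of_le_left (abs_nonneg _)

theorem bdz_Bx_succ (b k : ℕ) {x : Site 2} (h : x ∈ Bx b k) : x ∈ Bx b (k + 1) := by
  unfold Bx at h ⊢
  rw [mem_box] at h ⊢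
  intro l
  refine (h l).trans ?_
  have h1 : b * 2 ^ k ≤ b * 2 ^ (k + 1) :=
    Nat.mul_le_mul_left b (Nat.pow_le_pow_right (by norm_num) (Nat.le_succ k))
  exact_mod_cast h1

theorem bdz_Gk_nonneg (b k : ℕ) (x : Site 2) : 0 ≤ Gk b k x := by
  unfold Gk
  split_ifs
  · positivity
  · positivity

theorem bdz_Gk_in (b k : ℕ) {x : Site 2} (h : x ∈ Bx b k) : Gk b k x = 1 / 2 ^ k := by
  unfold Gk
  rw [if_pos (bdz_Bx_succ b k h)]

theorem BDZ (hSMS : SMS_stmt) (hINC : INC_stmt) (hPSA : PSA_stmt) : BDZ_stmt := by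
  intro κ C b B hκ hC hb hB
  obtain ⟨C1, hC1, hcard, -⟩ := hSMS b hb
  obtain ⟨CP, hCP0, hP⟩ := hPSA κ C b hb
  have hB0 : 0 ≤ B := by linarith
  have hC0 : 0 ≤ C := by linarith
  have hC10 : 0 ≤ C1 := by linarith
  refine ⟨B * C1 + B * CP + 2 * B + 2 * B * C, by positivity, ?_⟩
  intro E ι _ U a g φ Φ k1 hg hs k hk W w hw t
  obtain ⟨hW, hw0, hwb⟩ := hw
  obtain ⟨hPw, -⟩ := hP a φ Φ k1 hs k hk
  obtain ⟨-, -, hP3, hP4⟩ := hPw W w ⟨hW, hw0, hwb⟩
  have h4 : (0 : ℝ) < 4 ^ k := by positivity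
  have h2 : (0 : ℝ) < 2 ^ k := by positivity
  have h42 : (4 : ℝ) ^ k = 2 ^ k * 2 ^ k := by rw [← mul_pow]; norm_num
  have hk2 : ((k : ℝ) + 1) ≤ 2 ^ k := by
    have : k + 1 ≤ 2 ^ k := Nat.lt_two_pow_self
    exact_mod_cast this
  have h21 : (1 : ℝ) ≤ 2 ^ k := one_le_pow₀ (by norm_num)
  have hG0 := bdz_Gk_nonneg b k t.1
  refine ⟨?_, ?_, ?_⟩
  · -- VV
    have e1 : |VV g (Bx b k) w t| ≤ ∑ z ∈ Bx b k, W / 4 ^ k * B := by
      unfold VV
      refine (Finset.abs_sum_le_sum_abs _ _).trans (Finset.sum_le_sum fun z _ => ?_)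
      rw [abs_mul]
      exact mul_le_mul (hwb z) (hg _ _) (abs_nonneg _) (by positivity)
    rw [Finset.sum_const, nsmul_eq_mul] at e1
    have e2 : ((Bx b k).card : ℝ) * (W / 4 ^ k * B) ≤ C1 * 4 ^ k * (W / 4 ^ k * B) :=
      mul_le_mul_of_nonneg_right (hcard k) (by positivity)
    have e3 : C1 * 4 ^ k * (W / 4 ^ k * B) = B * C1 * W := by field_simp
    have e4 : (B * C1 + B * CP + 2 * B + 2 * B * C) * W = B * C1 * W + (B * CP + 2 * B + 2 * B * C) * W := by ring
    have e5 : 0 ≤ (B * CP + 2 * B + 2 * B * C) * W := by positivity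
    linarith
  · -- ZZ
    have e1 : |ZZ φ (Φ k) g (Bx b k) w t| ≤ ∑ z ∈ Bx b k, B * (|w z| * |φ (t.1 - z) - Φ k t.1|) := by
      unfold ZZ
      refine (Finset.abs_sum_le_sum_abs _ _).trans (Finset.sum_le_sum fun z _ => ?_)
      rw [abs_mul, abs_mul]
      have := mul_le_mul_of_nonneg_left (hg z (t.2 z)) (mul_nonneg (abs_nonneg (w z)) (abs_nonneg (φ (t.1 - z) - Φ k t.1)))
      nlinarith
    rw [← Finset.mul_sum] at e1
    have e2 := mul_le_mul_of_nonneg_left (hP3 t.1) hB0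
    have e4 : (B * C1 + B * CP + 2 * B + 2 * B * C) * W = B * (CP * W) + (B * C1 + 2 * B + 2 * B * C) * W := by ring
    have e5 : 0 ≤ (B * C1 + 2 * B + 2 * B * C) * W := by positivity
    linarith
  · intro i e
    obtain ⟨hI1, hI2, -⟩ := hINC E ι U t i e
    have hdg : |g t.1 (U.nx t.1 (t.2 t.1) i) - g t.1 (t.2 t.1)| ≤ 2 * B := by
      refine (abs_sub _ _).trans ?_
      linarith [hg t.1 (U.nx t.1 (t.2 t.1) i), hg t.1 (t.2 t.1)]
    refine ⟨?_, ?_⟩
    · rw [hI1 g (Bx b k) w]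
      by_cases hx : t.1 ∈ Bx b k
      · rw [if_pos hx, bdz_Gk_in b k hx, abs_mul]
        have e1 : |w t.1| * |g t.1 (U.nx t.1 (t.2 t.1) i) - g t.1 (t.2 t.1)| ≤ W / 4 ^ k * (2 * B) :=
          mul_le_mul (hwb _) hdg (abs_nonneg _) (by positivity)
        have e2 : W / 4 ^ k ≤ W * (1 / 2 ^ k) := by
          rw [h42, div_eq_mul_one_div]
          refine mul_le_mul_of_nonneg_left ?_ hW
          exact one_div_le_one_div_of_le h2 (le_mul_of_one_le_right h2.le h21)
        have e3 : (B * C1 + B * CP + 2 * B + 2 * B * C) * W * (1 / 2 ^ k) =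
            W * (1 / 2 ^ k) * (2 * B) + (B * C1 + B * CP + 2 * B * C) * W * (1 / 2 ^ k) := by ring
        have e4 : 0 ≤ (B * C1 + B * CP + 2 * B * C) * W * (1 / 2 ^ k) := by positivity
        have e5 := mul_le_mul_of_nonneg_right e2 (show 0 ≤ 2 * B by positivity)
        linarith
      · rw [if_neg hx, abs_zero]
        positivity
    · rw [hI2 φ (Φ k) g (Bx b k) w]
      refine (abs_add_le _ _).trans ?_
      have e1 : |∑ z ∈ Bx b k, w z * g z (t.2 z) *
          ((φ (t.1 + vec e - z) - Φ k (t.1 + vec e)) - (φ (t.1 - z) - Φ k t.1))| ≤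
          B * (CP * W * Gk b k t.1) := by
        refine (Finset.abs_sum_le_sum_abs _ _).trans ?_
        refine le_trans (Finset.sum_le_sum (g := fun z => B * (|w z| *
          |(φ (t.1 + vec e - z) - Φ k (t.1 + vec e)) - (φ (t.1 - z) - Φ k t.1)|)) fun z _ => ?_) ?_
        · rw [abs_mul, abs_mul]
          have := mul_le_mul_of_nonneg_left (hg z (t.2 z)) (mul_nonneg (abs_nonneg (w z))
            (abs_nonneg ((φ (t.1 + vec e - z) - Φ k (t.1 + vec e)) - (φ (t.1 - z) - Φ k t.1))))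
          nlinarith
        · rw [← Finset.mul_sum]
          exact mul_le_mul_of_nonneg_left (hP4 t.1 e) hB0
      have e2 : |(if t.1 ∈ Bx b k then w t.1 * (g t.1 (U.nx t.1 (t.2 t.1) i) - g t.1 (t.2 t.1)) *
          (φ (t.1 + vec e - t.1) - Φ k (t.1 + vec e)) else 0)| ≤ 2 * B * C * W * Gk b k t.1 := by
        by_cases hx : t.1 ∈ Bx b k
        · rw [if_pos hx, bdz_Gk_in b k hx, abs_mul, abs_mul]
          have f1 : |w t.1| * |g t.1 (U.nx t.1 (t.2 t.1) i) - g t.1 (t.2 t.1)| ≤ W / 4 ^ k * (2 * B) :=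
            mul_le_mul (hwb _) hdg (abs_nonneg _) (by positivity)
          have f2 : |φ (t.1 + vec e - t.1) - Φ k (t.1 + vec e)| ≤ C * 2 ^ k :=
            (hs.psiA k hk t.1 hx (t.1 + vec e)).trans (mul_le_mul_of_nonneg_left hk2 hC0)
          have f3 := mul_le_mul f1 f2 (abs_nonneg _) (by positivity)
          refine f3.trans (le_of_eq ?_)
          rw [h42]
          field_simp
        · rw [if_neg hx, abs_zero]
          positivity
      have e3 : (B * C1 + B * CP + 2 * B + 2 * B * C) * W * Gk b k t.1 =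
          B * (CP * W * Gk b k t.1) + 2 * B * C * W * Gk b k t.1 + (B * C1 + 2 * B) * W * Gk b k t.1 := by ring
      have e4 : 0 ≤ (B * C1 + 2 * B) * W * Gk b k t.1 := by positivity
      linarith

end Pool.Agent.Helper69.MKV
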